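import Pool.Agent.Helper89.MX.Scales
import Pool.Agent.Helper74.SP.Numeric2

set_option autoImplicit false

/-!
# Sparse and dense comparisons together: the quantitative bound
-/

namespace Pool.Agent.Helper21.MX

open Finset
open Pool.Agent.Helper22.ETModel Pool.Agent.Helper22.TSModel Pool.Agent.Helper22.EP
open Pool.Agent.Helper8.PQ

variable {m n M N d a D W R c k s κ B K s0 S1 t1 x : ℕ}

/-- The statement of the main bound before the choice of the scales. -/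
def MainB : Prop :=
  ∀ {m n k M N d a D W R K c s κ B s0 S1 t1 x L Y Q H : ℕ} {Λ : ℝ} {β t l r0 Nw : ℕ}
    (_ : 3 * m ≤ n) (_ : 1 ≤ β) (_ : 1 ≤ t) (_ : 1 ≤ l) (_ : S1 * l ≤ x) (_ : 1 ≤ S1) (_ : 1 ≤ k)
    (_ : 2 * (60 * β * t) ^ k ≤ m) (_ : m ≤ 2 ^ t) (_ : r0 ≤ k)
    (_ : 20 * x * β ≤ (60 * β * t) ^ r0) (_ : D ≤ Nw * (l * β ^ (k - r0)))
    (_ : Nw * (l * β ^ (k - r0)) ≤ D + m) (_ : 192 * ((D + m) * W * k) ≤ 2 ^ x)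
    (_ : 1 ≤ d) (_ : 2 * d * t1 ≤ s0) (_ : s ≤ S1) (_ : s0 ≤ S1) (_ : 2 * a ≤ S1)
    (_ : 256 * K ≤ 2 ^ t1) (_ : 256 * K * d ^ 2 ≤ N + 1) (_ : 256 * K * (4 * s0 * d) ≤ M)
    (_ : ∀ b : ℕ, b ^ k ≤ n → 512 * (k * (b ^ 2 * x * (2 * (s * κ) + 1)) ^ s) ≤ M)
    (_ : 512 * (3 * m ^ 2 * (2 * (s * κ) + 1)) ^ s ≤ N + 1) (_ : 2 * N + 2 ≤ L)
    (_ : B + s * κ * (2 * N + 1) + 1 ≤ L) (_ : M ≤ Y) (_ : s * κ * M ≤ Y) (_ : 1 ≤ M)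
    (_ : (3 * m ^ 2 + 1) ^ d ≤ H) (_ : (acC d : ℝ) * H * (L * (Y : ℝ) ^ k) ≤ Λ)
    (_ : 2 * (acC d : ℝ) * H * Λ ^ d ≤ Q) (_ : 1 ≤ Q)
    (_ : s * κ * (L * Y ^ k) + B + 1 ≤ Q)
    (_ : 256 * (2 * (D * (3 * m ^ 2 *
      ((2 * d * (K + (n ^ 2 * (2 * κ + 1)) ^ s * (2 * B + 1)) + 1) * a)))) ≤ N + 1)
    (_ : Even L) (_ : Even Q) (_ : L * Y ^ k ≤ Q) (_ : Q * (N + 1) ≤ n ^ c)
    (A : Alg n D W R (PolQ n d a) SignType) (_ : DecidesC A (polFam n d a) c)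
    (_ : FewM A s κ B K),
    m ^ 2 ≤ 192 * x * Nw

/-- The statement of the quadratic bound before the choice of the scales. -/
def TrivB : Prop :=
  ∀ {m n k M N d a D W R K c s κ B s0 S1 t1 x L Y Q H : ℕ} {Λ : ℝ}
    (_ : 3 * m ≤ n) (_ : 2 ≤ m) (_ : 1 ≤ k) (_ : 1 ≤ x)
    (_ : 1 ≤ d) (_ : 2 * d * t1 ≤ s0) (_ : s ≤ S1) (_ : s0 ≤ S1) (_ : 2 * a ≤ S1)
    (_ : 256 * K ≤ 2 ^ t1) (_ : 256 * K * d ^ 2 ≤ N + 1) (_ : 256 * K * (4 * s0 * d) ≤ M)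
    (_ : ∀ b : ℕ, b ^ k ≤ n → 512 * (k * (b ^ 2 * x * (2 * (s * κ) + 1)) ^ s) ≤ M)
    (_ : 512 * (3 * m ^ 2 * (2 * (s * κ) + 1)) ^ s ≤ N + 1) (_ : 2 * N + 2 ≤ L)
    (_ : B + s * κ * (2 * N + 1) + 1 ≤ L) (_ : M ≤ Y) (_ : s * κ * M ≤ Y) (_ : 1 ≤ M)
    (_ : (3 * m ^ 2 + 1) ^ d ≤ H) (_ : (acC d : ℝ) * H * (L * (Y : ℝ) ^ k) ≤ Λ)
    (_ : 2 * (acC d : ℝ) * H * Λ ^ d ≤ Q) (_ : 1 ≤ Q)
    (_ : s * κ * (L * Y ^ k) + B + 1 ≤ Q)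
    (_ : 256 * (2 * (D * (3 * m ^ 2 *
      ((2 * d * (K + (n ^ 2 * (2 * κ + 1)) ^ s * (2 * B + 1)) + 1) * a)))) ≤ N + 1)
    (_ : Even L) (_ : Even Q) (_ : L * Y ^ k ≤ Q) (_ : Q * (N + 1) ≤ n ^ c)
    (A : Alg n D W R (PolQ n d a) SignType) (_ : DecidesC A (polFam n d a) c)
    (_ : FewM A s κ B K),
    m ^ 2 ≤ 16 * S1 * D

/-- The main bound after the choice of the scales. -/
theorem main_boundM_of (hmain : MainB) {β t l r0 Nw : ℕ} (hn : 3 ≤ n) (h : 3 * m ≤ n) (hβ : 1 ≤ β) (ht : 1 ≤ t)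
    (hl1 : 1 ≤ l) (hl : S1 * l ≤ x) (hs1 : 1 ≤ S1) (hk : 1 ≤ k) (hbk : 2 * (60 * β * t) ^ k ≤ m)
    (hmt : m ≤ 2 ^ t) (hr0 : r0 ≤ k) (hr01 : 20 * x * β ≤ (60 * β * t) ^ r0)
    (hNw : D ≤ Nw * (l * β ^ (k - r0))) (hNw' : Nw * (l * β ^ (k - r0)) ≤ D + m)
    (hx : 192 * ((D + m) * W * k) ≤ 2 ^ x)
    (hd : 1 ≤ d) (hs0 : 2 * d * t1 ≤ s0) (h1 : s ≤ S1) (h2 : s0 ≤ S1) (h3 : 2 * a ≤ S1)
    (hK : 256 * K ≤ 2 ^ t1) (hN : 256 * K * d ^ 2 ≤ N)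
    (hN2 : 171 * n ^ 5 *
      ((2 * d * (K + (n ^ 2 * (2 * κ + 1)) ^ s * (2 * B + 1)) + 1) * a) ≤ N)
    (hNf : 512 * (n ^ 2 * (2 * (s * κ) + 1)) ^ s ≤ N)
    (hM : 1024 * K * s0 * d ≤ M) (hM1 : 1 ≤ M)
    (hMf : ∀ b : ℕ, b ^ k ≤ n → 512 * (k * (b ^ 2 * x * (2 * (s * κ) + 1)) ^ s) ≤ M)
    (hκ : s * κ ≤ n)
    (hsz : 2 * acC d * n ^ (2 * d) * (acC d * n ^ (2 * d) *
      (2 * ((N + 1) * (s * κ + 1) + B) * ((s * κ + 1) * M) ^ k)) ^ d * (N + 1) ≤ n ^ c)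
    (hD : D ≤ n ^ 3)
    (A : Alg n D W R (PolQ n d a) SignType) (hA : DecidesC A (polFam n d a) c)
    (hAK : FewM A s κ B K) :
    m ^ 2 ≤ 192 * x * Nw := by
  obtain ⟨H, L, Y, Q, Λ, hS⟩ := scalesM (k := k) hn hd hM1 hκ hsz
  exact hmain h hβ ht hl1 hl hs1 hk hbk hmt hr0 hr01 hNw hNw' hx hd hs0 h1 h2 h3 hK
    (hN.trans (Nat.le_succ _)) (by
      calc 256 * K * (4 * s0 * d) = 1024 * K * s0 * d := by ring
        _ ≤ M := hM) hMf (noiseF_ok h hNf) hS.hL hS.hLB hS.hY hS.hYs hM1 (hS.hH m h) hS.hΛ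
    hS.hQ hS.hQ1 hS.hQs (noiseM_ok h hD hN2) hS.hLe hS.hQe hS.hLQ hS.hQn A hA hAK

/-- The quadratic bound after the choice of the scales. -/
theorem trivial_boundM_of (htr : TrivB) (hn : 3 ≤ n) (h : 3 * m ≤ n) (hm : 2 ≤ m) (hk : 1 ≤ k) (hx1 : 1 ≤ x)
    (hd : 1 ≤ d) (hs0 : 2 * d * t1 ≤ s0) (h1 : s ≤ S1) (h2 : s0 ≤ S1) (h3 : 2 * a ≤ S1)
    (hK : 256 * K ≤ 2 ^ t1) (hN : 256 * K * d ^ 2 ≤ N)
    (hN2 : 171 * n ^ 5 *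
      ((2 * d * (K + (n ^ 2 * (2 * κ + 1)) ^ s * (2 * B + 1)) + 1) * a) ≤ N)
    (hNf : 512 * (n ^ 2 * (2 * (s * κ) + 1)) ^ s ≤ N)
    (hM : 1024 * K * s0 * d ≤ M) (hM1 : 1 ≤ M)
    (hMf : ∀ b : ℕ, b ^ k ≤ n → 512 * (k * (b ^ 2 * x * (2 * (s * κ) + 1)) ^ s) ≤ M)
    (hκ : s * κ ≤ n)
    (hsz : 2 * acC d * n ^ (2 * d) * (acC d * n ^ (2 * d) *
      (2 * ((N + 1) * (s * κ + 1) + B) * ((s * κ + 1) * M) ^ k)) ^ d * (N + 1) ≤ n ^ c)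
    (hD : D ≤ n ^ 3)
    (A : Alg n D W R (PolQ n d a) SignType) (hA : DecidesC A (polFam n d a) c)
    (hAK : FewM A s κ B K) :
    m ^ 2 ≤ 16 * S1 * D := by
  obtain ⟨H, L, Y, Q, Λ, hS⟩ := scalesM (k := k) hn hd hM1 hκ hsz
  exact htr h hm hk hx1 hd hs0 h1 h2 h3 hK
    (hN.trans (Nat.le_succ _)) (by
      calc 256 * K * (4 * s0 * d) = 1024 * K * s0 * d := by ring
        _ ≤ M := hM) hMf (noiseF_ok h hNf) hS.hL hS.hLB hS.hY hS.hYs hM1 (hS.hH m h) hS.hΛ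
    hS.hQ hS.hQ1 hS.hQs (noiseM_ok h hD hN2) hS.hLe hS.hQe hS.hLQ hS.hQn A hA hAK

/-- The quantitative bound, any memory. -/
theorem quantM_of (hmain : MainB) (htr : TrivB) (hk : 1 ≤ k) (hkn : 12 * k ≤ n) (hS1 : 1 ≤ S1) (hSx : S1 ≤ x)
    (hd : 1 ≤ d) (hs0 : 2 * d * t1 ≤ s0) (h1 : s ≤ S1) (h2 : s0 ≤ S1) (h3 : 2 * a ≤ S1)
    (hK : 256 * K ≤ 2 ^ t1) (hN : 256 * K * d ^ 2 ≤ N)
    (hN2 : 171 * n ^ 5 *
      ((2 * d * (K + (n ^ 2 * (2 * κ + 1)) ^ s * (2 * B + 1)) + 1) * a) ≤ N)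
    (hNf : 512 * (n ^ 2 * (2 * (s * κ) + 1)) ^ s ≤ N)
    (hM : 1024 * K * s0 * d ≤ M) (hM1 : 1 ≤ M)
    (hMf : ∀ b : ℕ, b ^ (2 * k) ≤ n →
      512 * (2 * k * (b ^ 2 * x * (2 * (s * κ) + 1)) ^ s) ≤ M)
    (hκ : s * κ ≤ n)
    (hsz : 2 * acC d * n ^ (2 * d) * (acC d * n ^ (2 * d) *
      (2 * ((N + 1) * (s * κ + 1) + B) * ((s * κ + 1) * M) ^ (2 * k))) ^ d * (N + 1) ≤ n ^ c)
    (hx : 2 ^ 7 * n ^ 4 * W ≤ 2 ^ x)
    (A : Alg n D W R (PolQ n d a) SignType) (hA : DecidesC A (polFam n d a) c)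
    (hAK : FewM A s κ B K) :
    (n : ℝ) ^ (3 - 1 / (k : ℝ)) ≤ (2 ^ 15 * Real.logb 2 n) ^ (2 * k) * S1 * x * D := by
  obtain ⟨m, hmdef⟩ : ∃ m, m = n / 3 := ⟨_, rfl⟩
  obtain ⟨m', hm'def⟩ : ∃ m', m' = m / 2 := ⟨_, rfl⟩
  have hn3 : 3 ≤ n := by omega
  have h3m : 3 * m ≤ n := by omega
  have hm : 2 ≤ m := by omega
  have hm' : 1 ≤ m' := by omega
  have h2m' : 2 * m' ≤ m := by omega
  have hn11 : n ≤ 11 * m' := by omega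
  have hx1 : 1 ≤ x := hS1.trans hSx
  have hn1 : (1 : ℝ) ≤ n := by exact_mod_cast (show 1 ≤ n by omega)
  have hm1 : (1 : ℝ) ≤ m' := by exact_mod_cast hm'
  have hk1 : (1 : ℝ) ≤ k := by exact_mod_cast hk
  have hs1R : (1 : ℝ) ≤ S1 := by exact_mod_cast hS1
  have hxr : (1 : ℝ) ≤ x := by exact_mod_cast hx1
  have hD0 : (0 : ℝ) ≤ D := Nat.cast_nonneg D
  have hlogn : 1 ≤ Real.logb 2 n := by
    rw [Real.le_logb_iff_rpow_le (by norm_num) (by linarith), Real.rpow_one]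
    have : (2 : ℝ) ≤ n := by exact_mod_cast (show 2 ≤ n by omega)
    linarith
  have hexp0 : 0 ≤ 3 - 1 / (k : ℝ) := by
    have : 1 / (k : ℝ) ≤ 1 := by
      rw [div_le_one (by linarith)]; exact hk1
    linarith
  have hexp3 : 3 - 1 / (k : ℝ) ≤ 3 := by
    have : 0 ≤ 1 / (k : ℝ) := by positivity
    linarith
  -- large number of queries
  by_cases hD : n ^ 3 < D
  · have h1 : (n : ℝ) ^ (3 - 1 / (k : ℝ)) ≤ (n : ℝ) ^ (3 : ℝ) :=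
      Real.rpow_le_rpow_of_exponent_le hn1 hexp3
    have h2 : (n : ℝ) ^ (3 : ℝ) ≤ D := by
      have : ((n ^ 3 : ℕ) : ℝ) ≤ D := by exact_mod_cast hD.le
      push_cast at this
      calc (n : ℝ) ^ (3 : ℝ) = (n : ℝ) ^ (3 : ℕ) := by norm_cast
        _ ≤ D := this
    have h3 : (1 : ℝ) ≤ (2 ^ 15 * Real.logb 2 n) ^ (2 * k) := one_le_pow₀ (by nlinarith)
    have h4 : (1 : ℝ) ≤ (2 ^ 15 * Real.logb 2 n) ^ (2 * k) * S1 * x :=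
      one_le_mul_of_one_le_of_one_le (one_le_mul_of_one_le_of_one_le h3 hs1R) hxr
    exact (h1.trans h2).trans (le_mul_of_one_le_left hD0 h4)
  push Not at hD
  have htriv := trivial_boundM_of htr (k := 2 * k) hn3 h3m hm (by omega) hx1 hd hs0 h1 h2 h3 hK hN hN2
    hNf hM hM1 hMf hκ hsz hD A hA hAK
  -- the parameter `t`
  obtain ⟨t, htdef⟩ : ∃ t, t = Nat.clog 2 m := ⟨_, rfl⟩
  have ht2 : m ≤ 2 ^ t := by rw [htdef]; exact Nat.le_pow_clog (by norm_num) _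
  have ht1 : 1 ≤ t := by rw [htdef]; exact Nat.clog_pos (by norm_num) (by omega)
  have htle : (t : ℝ) ≤ 2 * Real.logb 2 n := by
    have h1 := Nat.pow_pred_clog_lt_self (b := 2) (x := m) (by norm_num) (by omega)
    rw [← htdef] at h1
    have h2 : (t : ℝ) - 1 ≤ Real.logb 2 n := by
      rw [Real.le_logb_iff_rpow_le (by norm_num) (by positivity)]
      have h3 : ((2 ^ t.pred : ℕ) : ℝ) ≤ ((n : ℕ) : ℝ) := by
        have : 2 ^ t.pred ≤ n := h1.le.trans (by omega)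
        exact_mod_cast this
      push_cast at h3
      calc (2 : ℝ) ^ ((t : ℝ) - 1) = (2 : ℝ) ^ t.pred := by
            rw [← Real.rpow_natCast]
            congr 1
            rw [Nat.pred_eq_sub_one, Nat.cast_sub ht1, Nat.cast_one]
        _ ≤ n := h3
    linarith
  have hsq : 4 * m' ^ 2 ≤ m ^ 2 := by
    calc 4 * m' ^ 2 = (2 * m') ^ 2 := by ring
      _ ≤ m ^ 2 := Nat.pow_le_pow_left h2m' 2
  -- the bound for `m'`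
  have hnum : (m' : ℝ) ^ (3 - 2 / ((2 * k : ℕ) : ℝ)) ≤
      6 * (120 * (t : ℝ)) ^ (2 * k) * S1 * x * D := by
    apply Pool.Agent.Helper74.SP.numeric2 hm' hS1 hSx (by omega) ht1
    · have h1 : 16 * S1 * D = 4 * (4 * S1 * D) := by ring
      have h2 : 4 * S1 * D ≤ 6 * S1 * D :=
        Nat.mul_le_mul_right _ (Nat.mul_le_mul_right _ (by norm_num))
      omega
    intro β l r0 Nw hβ hl1 hl hbk hr0 hr01 hNw hNw'
    have hmb := main_boundM_of hmain (k := 2 * k) (t := t) (x := x) hn3 h3m hβ ht1 hl1 hl hS1 (by omega)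
      (by omega) ht2 hr0 hr01 hNw (hNw'.trans (by omega)) (by
        have h5 : D + m ≤ 2 * n ^ 3 := by
          have h6 : m ≤ n ^ 3 := by
            calc m ≤ n := by omega
              _ ≤ n ^ 3 := Nat.le_self_pow (by omega) _
          omega
        calc 192 * ((D + m) * W * (2 * k)) ≤ 192 * (2 * n ^ 3 * W * (2 * k)) :=
              Nat.mul_le_mul_left _ (Nat.mul_le_mul_right _ (Nat.mul_le_mul_right _ h5))
          _ = 64 * (n ^ 3 * W) * (12 * k) := by ring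
          _ ≤ 64 * (n ^ 3 * W) * n := Nat.mul_le_mul_left _ hkn
          _ = 64 * (n ^ 4 * W) := by ring
          _ ≤ 128 * (n ^ 4 * W) := Nat.mul_le_mul_right _ (by norm_num)
          _ = 2 ^ 7 * n ^ 4 * W := by ring
          _ ≤ 2 ^ x := hx)
      hd hs0 h1 h2 h3 hK hN hN2 hNf hM hM1 hMf hκ hsz hD A hA hAK
    have h1 : 192 * x * Nw = 4 * (48 * x * Nw) := by ring
    have h2 : 48 * x * Nw ≤ 72 * x * Nw :=
      Nat.mul_le_mul_right _ (Nat.mul_le_mul_right _ (by norm_num))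
    omega
  have hexp : 3 - 2 / ((2 * k : ℕ) : ℝ) = 3 - 1 / (k : ℝ) := by
    push_cast
    have : (k : ℝ) ≠ 0 := by positivity
    field_simp
  rw [hexp] at hnum
  -- conclusion
  have h1 : (n : ℝ) ^ (3 - 1 / (k : ℝ)) ≤ (11 * (m' : ℝ)) ^ (3 - 1 / (k : ℝ)) := by
    apply Real.rpow_le_rpow (by linarith) _ hexp0
    exact_mod_cast hn11
  have h2 : (11 * (m' : ℝ)) ^ (3 - 1 / (k : ℝ)) ≤ 1331 * (m' : ℝ) ^ (3 - 1 / (k : ℝ)) := by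
    rw [Real.mul_rpow (by norm_num) (by linarith)]
    apply mul_le_mul_of_nonneg_right _ (by positivity)
    calc (11 : ℝ) ^ (3 - 1 / (k : ℝ)) ≤ (11 : ℝ) ^ (3 : ℝ) :=
          Real.rpow_le_rpow_of_exponent_le (by norm_num) hexp3
      _ = 1331 := by norm_num
  have h3 : (7986 : ℝ) ≤ 90 ^ (2 * k) := by
    calc (7986 : ℝ) ≤ 90 ^ 2 := by norm_num
      _ ≤ 90 ^ (2 * k) := pow_le_pow_right₀ (by norm_num) (by omega)
  have hsxD : 0 ≤ (S1 : ℝ) * x * D := by positivity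
  have h4 : (120 * (t : ℝ)) ^ (2 * k) ≤ (240 * Real.logb 2 n) ^ (2 * k) := by
    apply pow_le_pow_left₀ (by positivity)
    linarith
  calc (n : ℝ) ^ (3 - 1 / (k : ℝ)) ≤ 1331 * (m' : ℝ) ^ (3 - 1 / (k : ℝ)) := h1.trans h2
    _ ≤ 1331 * (6 * (120 * (t : ℝ)) ^ (2 * k) * S1 * x * D) :=
        mul_le_mul_of_nonneg_left hnum (by norm_num)
    _ = 7986 * (120 * (t : ℝ)) ^ (2 * k) * (S1 * x * D) := by ring
    _ ≤ 90 ^ (2 * k) * (240 * Real.logb 2 n) ^ (2 * k) * (S1 * x * D) := by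
        apply mul_le_mul_of_nonneg_right _ hsxD
        exact mul_le_mul h3 h4 (by positivity) (by positivity)
    _ = (90 * (240 * Real.logb 2 n)) ^ (2 * k) * (S1 * x * D) := by rw [mul_pow 90]
    _ ≤ (2 ^ 15 * Real.logb 2 n) ^ (2 * k) * (S1 * x * D) := by
        apply mul_le_mul_of_nonneg_right _ hsxD
        apply pow_le_pow_left₀ (by positivity)
        nlinarith
    _ = (2 ^ 15 * Real.logb 2 n) ^ (2 * k) * S1 * x * D := by ring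

end Pool.Agent.Helper21.MX
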