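import Pool.Agent.Helper89.MX.AsymOf
import Pool.Agent.Helper96.MX.Final

set_option autoImplicit false

/-!
# Sparse and dense comparisons together: the asymptotic form
-/

namespace Pool.Agent.Helper21.MX

open Finset
open Pool.Agent.Helper22.ETModel Pool.Agent.Helper22.TSModel Pool.Agent.Helper22.EP
open Pool.Agent.Helper8.PQ

/-- The asymptotic form, any memory. -/
theorem asymM (d c s b : ℕ) (w σ ε : ℝ) (hd : 1 ≤ d)
    (hw : 0 ≤ w) (hσ : 0 ≤ σ) (hε : 0 < ε)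
    (h : (d + 1) * (5 + max w (2 * s + b)) + 2 * d * (d + 1) +
      d * max w (s * (ε + σ)) * (2 / ε + 2) < c) :
    ∃ δ : ℝ, 0 < δ ∧ ∃ n₀ : ℕ, ∀ n : ℕ, n₀ ≤ n → ∀ a κ K D W R : ℕ, (a : ℝ) ≤ (n : ℝ) ^ δ →
      (κ : ℝ) ≤ (n : ℝ) ^ δ → (K : ℝ) ≤ (n : ℝ) ^ w → Real.logb 2 W ≤ (n : ℝ) ^ σ →
      ∀ A : Alg n D W R (PolQ n d a) SignType, DecidesC A (polFam n d a) c →
        FewM A s κ (n ^ b) K → (n : ℝ) ^ (3 - ε) ≤ D * (1 + Real.logb 2 W) :=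
  asymM_of mainB trivB d c s b w σ ε hd hw hσ hε h

end Pool.Agent.Helper21.MX
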