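import Pool.Agent.Helper8.PQ.Size

set_option autoImplicit false

/-!
# Sparse and dense comparisons together: the sizes of the parameters
-/

namespace Pool.Agent.Helper21.MX

open Finset
open Pool.Agent.Helper8.PQ

lemma rpow_pow_nat {y : ℝ} (hy : 0 < y) (u : ℝ) (s : ℕ) : (y ^ u) ^ s = y ^ (u * s) := by
  rw [← Real.rpow_natCast, ← Real.rpow_mul hy.le]

/-- The size of the noise. -/
lemma sizeN {n K d a s κ b : ℕ} {w δ : ℝ} (hn : 1 ≤ n) (hδ : 0 < δ)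
    (hK : (K : ℝ) ≤ (n : ℝ) ^ w) (ha : (a : ℝ) ≤ (n : ℝ) ^ δ) (hκ : (κ : ℝ) ≤ (n : ℝ) ^ δ) :
    ((256 * K * d ^ 2 + 171 * n ^ 5 * ((2 * d * (K + (n ^ 2 * (2 * κ + 1)) ^ s *
      (2 * n ^ b + 1)) + 1) * a) + 512 * (n ^ 2 * (2 * (s * κ) + 1)) ^ s : ℕ) : ℝ) ≤
      (256 * d ^ 2 + 171 * (2 * d * (1 + 3 ^ (s + 1)) + 1) + 512 * (2 * s + 1) ^ s) *
        (n : ℝ) ^ (5 + max w (2 * s + b) + δ * (s + 1)) := by
  push_cast
  obtain ⟨y, hy⟩ : ∃ y : ℝ, y = n := ⟨_, rfl⟩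
  obtain ⟨μ, hμ⟩ : ∃ μ : ℝ, μ = max w (2 * s + b) := ⟨_, rfl⟩
  have hy1 : 1 ≤ y := by rw [hy]; exact_mod_cast hn
  have hy0 : 0 < y := by linarith
  rw [← hy] at hK ha hκ ⊢
  rw [← hμ]
  have hμw : w ≤ μ := by rw [hμ]; exact le_max_left _ _
  have hμb : (2 * s + b : ℝ) ≤ μ := by rw [hμ]; exact le_max_right _ _
  have hs0 : (0 : ℝ) ≤ s := Nat.cast_nonneg s
  have hb0 : (0 : ℝ) ≤ b := Nat.cast_nonneg b
  have hd0 : (0 : ℝ) ≤ d := Nat.cast_nonneg d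
  have hκ0 : (0 : ℝ) ≤ κ := Nat.cast_nonneg κ
  have ha0 : (0 : ℝ) ≤ a := Nat.cast_nonneg a
  have hK0 : (0 : ℝ) ≤ K := Nat.cast_nonneg K
  have hμ0 : 0 ≤ μ := by linarith
  have hyd : 1 ≤ y ^ δ := Real.one_le_rpow hy1 hδ.le
  obtain ⟨Z, hZ⟩ : ∃ Z : ℝ, Z = y ^ (μ + δ * s) := ⟨_, rfl⟩
  have hδs : 0 ≤ δ * s := mul_nonneg hδ.le hs0
  have hZ1 : 1 ≤ Z := by rw [hZ]; exact Real.one_le_rpow hy1 (by linarith)
  have hZ0 : 0 < Z := by linarith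
  have hU : y ^ (5 + μ + δ * (s + 1)) = y ^ 5 * Z * y ^ δ := by
    rw [hZ, ← Real.rpow_natCast y 5, ← Real.rpow_add hy0, ← Real.rpow_add hy0]
    congr 1
    push_cast
    ring
  have hy5 : (1 : ℝ) ≤ y ^ 5 := one_le_pow₀ hy1
  have hZU : Z ≤ y ^ 5 * Z * y ^ δ := by
    calc Z = 1 * Z * 1 := by ring
      _ ≤ y ^ 5 * Z * y ^ δ := by
          apply mul_le_mul _ hyd (by norm_num) (by positivity)
          exact mul_le_mul_of_nonneg_right hy5 hZ0.le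
  have hKZ : (K : ℝ) ≤ Z := by
    rw [hZ]
    exact hK.trans (Real.rpow_le_rpow_of_exponent_le hy1 (by linarith))
  have hpw : ∀ C : ℝ, 0 ≤ C → (C * (y ^ 2 * y ^ δ)) ^ s = C ^ s * y ^ (2 * (s : ℝ) + δ * s) := by
    intro C _
    rw [mul_pow, mul_pow, rpow_pow_nat hy0, ← Real.rpow_natCast y 2, rpow_pow_nat hy0,
      ← Real.rpow_add hy0]
    push_cast
    rfl
  have h1 : (y ^ 2 * (2 * κ + 1)) ^ s ≤ 3 ^ s * y ^ (2 * (s : ℝ) + δ * s) := by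
    rw [← hpw 3 (by norm_num)]
    apply pow_le_pow_left₀ (by positivity)
    have e1 : (2 * (κ : ℝ) + 1) ≤ 3 * y ^ δ := by linarith
    calc y ^ 2 * (2 * κ + 1) ≤ y ^ 2 * (3 * y ^ δ) := mul_le_mul_of_nonneg_left e1 (by positivity)
      _ = 3 * (y ^ 2 * y ^ δ) := by ring
  have h2 : (y ^ 2 * (2 * (s * κ) + 1)) ^ s ≤ (2 * s + 1) ^ s * y ^ (2 * (s : ℝ) + δ * s) := by
    rw [← hpw (2 * s + 1) (by positivity)]
    apply pow_le_pow_left₀ (by positivity)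
    have e1 : (2 * ((s : ℝ) * κ) + 1) ≤ (2 * s + 1) * y ^ δ := by nlinarith
    calc y ^ 2 * (2 * (s * κ) + 1) ≤ y ^ 2 * ((2 * s + 1) * y ^ δ) :=
          mul_le_mul_of_nonneg_left e1 (by positivity)
      _ = (2 * s + 1) * (y ^ 2 * y ^ δ) := by ring
  have h3 : y ^ (2 * (s : ℝ) + δ * s) ≤ Z := by
    rw [hZ]
    exact Real.rpow_le_rpow_of_exponent_le hy1 (by linarith)
  have h4 : (y ^ 2 * (2 * κ + 1)) ^ s * (2 * y ^ b + 1) ≤ 3 ^ (s + 1) * Z := by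
    have e1 : (1 : ℝ) ≤ y ^ b := one_le_pow₀ hy1
    have e2 : 2 * y ^ b + 1 ≤ 3 * y ^ b := by linarith
    calc (y ^ 2 * (2 * κ + 1)) ^ s * (2 * y ^ b + 1)
        ≤ (3 ^ s * y ^ (2 * (s : ℝ) + δ * s)) * (3 * y ^ b) :=
          mul_le_mul h1 e2 (by positivity) (by positivity)
      _ = 3 ^ (s + 1) * (y ^ (2 * (s : ℝ) + δ * s) * y ^ b) := by ring
      _ = 3 ^ (s + 1) * y ^ (2 * (s : ℝ) + δ * s + b) := by
          rw [← Real.rpow_natCast y b, ← Real.rpow_add hy0]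
      _ ≤ 3 ^ (s + 1) * Z := by
          apply mul_le_mul_of_nonneg_left _ (by positivity)
          rw [hZ]
          exact Real.rpow_le_rpow_of_exponent_le hy1 (by linarith)
  have h5 : 2 * (d : ℝ) * (K + (y ^ 2 * (2 * κ + 1)) ^ s * (2 * y ^ b + 1)) + 1 ≤
      (2 * d * (1 + 3 ^ (s + 1)) + 1) * Z := by
    have e1 : (K : ℝ) + (y ^ 2 * (2 * κ + 1)) ^ s * (2 * y ^ b + 1) ≤ (1 + 3 ^ (s + 1)) * Z := by
      linarith
    have e2 : 2 * (d : ℝ) * (K + (y ^ 2 * (2 * κ + 1)) ^ s * (2 * y ^ b + 1)) ≤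
        2 * d * ((1 + 3 ^ (s + 1)) * Z) := mul_le_mul_of_nonneg_left e1 (by positivity)
    calc _ ≤ 2 * d * ((1 + 3 ^ (s + 1)) * Z) + Z := by linarith
      _ = _ := by ring
  have h6 : 171 * y ^ 5 * ((2 * d * (K + (y ^ 2 * (2 * κ + 1)) ^ s * (2 * y ^ b + 1)) + 1) * a) ≤
      171 * (2 * d * (1 + 3 ^ (s + 1)) + 1) * (y ^ 5 * Z * y ^ δ) := by
    calc _ ≤ 171 * y ^ 5 * (((2 * d * (1 + 3 ^ (s + 1)) + 1) * Z) * y ^ δ) := by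
          apply mul_le_mul_of_nonneg_left _ (by positivity)
          exact mul_le_mul h5 ha ha0 (by positivity)
      _ = _ := by ring
  have h7 : 256 * (K : ℝ) * d ^ 2 ≤ 256 * d ^ 2 * (y ^ 5 * Z * y ^ δ) := by
    calc 256 * (K : ℝ) * d ^ 2 = 256 * d ^ 2 * K := by ring
      _ ≤ _ := mul_le_mul_of_nonneg_left (hKZ.trans hZU) (by positivity)
  have h8 : 512 * (y ^ 2 * (2 * (s * κ) + 1)) ^ s ≤
      512 * (2 * s + 1) ^ s * (y ^ 5 * Z * y ^ δ) := by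
    calc 512 * (y ^ 2 * (2 * (s * κ) + 1)) ^ s
        ≤ 512 * ((2 * s + 1) ^ s * y ^ (2 * (s : ℝ) + δ * s)) :=
          mul_le_mul_of_nonneg_left h2 (by norm_num)
      _ = 512 * (2 * s + 1) ^ s * y ^ (2 * (s : ℝ) + δ * s) := by ring
      _ ≤ _ := mul_le_mul_of_nonneg_left (h3.trans hZU) (by positivity)
  rw [hU]
  linarith

/-- The size of the masks. -/
lemma sizeM {n K d s0 s κ k x r : ℕ} {w δ σ ε : ℝ} (hn : 1 ≤ n) (hδ : 0 < δ) (hw : 0 ≤ w)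
    (hσ : 0 ≤ σ) (hK : (K : ℝ) ≤ (n : ℝ) ^ w) (hs0 : (s0 : ℝ) ≤ (n : ℝ) ^ (2 * δ))
    (hx : (x : ℝ) ≤ (n : ℝ) ^ (σ + 4 * δ)) (hr : (r : ℝ) ^ 2 ≤ (n : ℝ) ^ ε)
    (hκ : (κ : ℝ) ≤ (n : ℝ) ^ δ) :
    ((1024 * K * s0 * d + 1 + 512 * (2 * k * (r ^ 2 * x * (2 * (s * κ) + 1)) ^ s) : ℕ) : ℝ) ≤
      (1024 * d + 1 + 1024 * k * (2 * s + 1) ^ s) *
        (n : ℝ) ^ (max w (s * (ε + σ)) + δ * (5 * s + 2)) := by
  push_cast
  obtain ⟨y, hy⟩ : ∃ y : ℝ, y = n := ⟨_, rfl⟩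
  obtain ⟨ν, hν⟩ : ∃ ν : ℝ, ν = max w (s * (ε + σ)) := ⟨_, rfl⟩
  have hy1 : 1 ≤ y := by rw [hy]; exact_mod_cast hn
  have hy0 : 0 < y := by linarith
  rw [← hy] at hK hs0 hx hr hκ ⊢
  rw [← hν]
  have hνw : w ≤ ν := by rw [hν]; exact le_max_left _ _
  have hνs : (s * (ε + σ) : ℝ) ≤ ν := by rw [hν]; exact le_max_right _ _
  have hs0' : (0 : ℝ) ≤ s := Nat.cast_nonneg s
  have hd0 : (0 : ℝ) ≤ d := Nat.cast_nonneg d
  have hκ0 : (0 : ℝ) ≤ κ := Nat.cast_nonneg κ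
  have hK0 : (0 : ℝ) ≤ K := Nat.cast_nonneg K
  have hk0 : (0 : ℝ) ≤ k := Nat.cast_nonneg k
  have hx0 : (0 : ℝ) ≤ x := Nat.cast_nonneg x
  have hs00 : (0 : ℝ) ≤ s0 := Nat.cast_nonneg s0
  have hyd : 1 ≤ y ^ δ := Real.one_le_rpow hy1 hδ.le
  have hδs : 0 ≤ δ * s := mul_nonneg hδ.le hs0'
  obtain ⟨Z, hZ⟩ : ∃ Z : ℝ, Z = y ^ (ν + δ * (5 * s + 2)) := ⟨_, rfl⟩
  have hZ1 : 1 ≤ Z := by rw [hZ]; exact Real.one_le_rpow hy1 (by nlinarith)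
  rw [← hZ]
  have h1 : (K : ℝ) * s0 ≤ Z := by
    calc (K : ℝ) * s0 ≤ y ^ w * y ^ (2 * δ) := mul_le_mul hK hs0 hs00 (by positivity)
      _ = y ^ (w + 2 * δ) := by rw [← Real.rpow_add hy0]
      _ ≤ Z := by
          rw [hZ]
          exact Real.rpow_le_rpow_of_exponent_le hy1 (by nlinarith)
  have h2 : 1024 * (K : ℝ) * s0 * d ≤ 1024 * d * Z := by
    calc 1024 * (K : ℝ) * s0 * d = 1024 * d * (K * s0) := by ring
      _ ≤ _ := mul_le_mul_of_nonneg_left h1 (by positivity)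
  have e1 : (2 * ((s : ℝ) * κ) + 1) ≤ (2 * s + 1) * y ^ δ := by nlinarith
  have h3 : (r : ℝ) ^ 2 * x * (2 * (s * κ) + 1) ≤ (2 * s + 1) * y ^ (ε + σ + 5 * δ) := by
    calc (r : ℝ) ^ 2 * x * (2 * (s * κ) + 1)
        ≤ (y ^ ε * y ^ (σ + 4 * δ)) * ((2 * s + 1) * y ^ δ) := by
          apply mul_le_mul _ e1 (by positivity) (by positivity)
          exact mul_le_mul hr hx hx0 (by positivity)
      _ = (2 * s + 1) * (y ^ ε * y ^ (σ + 4 * δ) * y ^ δ) := by ring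
      _ = (2 * s + 1) * y ^ (ε + σ + 5 * δ) := by
          rw [← Real.rpow_add hy0, ← Real.rpow_add hy0]
          congr 2
          ring
  have h4 : ((r : ℝ) ^ 2 * x * (2 * (s * κ) + 1)) ^ s ≤ (2 * s + 1) ^ s * Z := by
    calc ((r : ℝ) ^ 2 * x * (2 * (s * κ) + 1)) ^ s
        ≤ ((2 * s + 1) * y ^ (ε + σ + 5 * δ)) ^ s := pow_le_pow_left₀ (by positivity) h3 s
      _ = (2 * s + 1) ^ s * y ^ ((ε + σ + 5 * δ) * s) := by rw [mul_pow, rpow_pow_nat hy0]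
      _ ≤ (2 * s + 1) ^ s * Z := by
          apply mul_le_mul_of_nonneg_left _ (by positivity)
          rw [hZ]
          exact Real.rpow_le_rpow_of_exponent_le hy1 (by nlinarith)
  have h5 : 512 * (2 * (k : ℝ) * ((r : ℝ) ^ 2 * x * (2 * (s * κ) + 1)) ^ s) ≤
      1024 * k * (2 * s + 1) ^ s * Z := by
    calc 512 * (2 * (k : ℝ) * ((r : ℝ) ^ 2 * x * (2 * (s * κ) + 1)) ^ s)
        = 1024 * k * ((r : ℝ) ^ 2 * x * (2 * (s * κ) + 1)) ^ s := by ring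
      _ ≤ 1024 * k * ((2 * s + 1) ^ s * Z) := mul_le_mul_of_nonneg_left h4 (by positivity)
      _ = _ := by ring
  linarith

/-- The size condition. -/
lemma sizeAll {n d k N M c q B A : ℕ} {u v δ C1 C2 γ : ℝ} (hn : 1 ≤ n) (hC1 : 0 ≤ C1)
    (hC2 : 0 ≤ C2)
    (hN : (2 * ((N + 1) * (q + 1) + B : ℕ) : ℝ) ≤ C1 * (n : ℝ) ^ u)
    (hM : (((q + 1) * M : ℕ) : ℝ) ≤ C2 * (n : ℝ) ^ v)
    (hC : 2 * (A : ℝ) * (A * (C1 * C2 ^ k)) ^ d * C1 ≤ (n : ℝ) ^ γ)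
    (hc : 2 * (d : ℝ) + d * (2 * d + u + v * k) + u + γ ≤ c) :
    2 * A * n ^ (2 * d) * (A * n ^ (2 * d) * (2 * ((N + 1) * (q + 1) + B) *
      ((q + 1) * M) ^ k)) ^ d * (N + 1) ≤ n ^ c := by
  obtain ⟨N', hN'⟩ : ∃ N', N' + 1 = (N + 1) * (q + 1) + B :=
    ⟨(N + 1) * (q + 1) + B - 1, by
      have : 1 ≤ (N + 1) * (q + 1) := Nat.mul_pos (by omega) (by omega)
      omega⟩
  have hNN : N + 1 ≤ N' + 1 := by
    rw [hN']
    have : N + 1 ≤ (N + 1) * (q + 1) := Nat.le_mul_of_pos_right _ (by omega)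
    omega
  have h := size_real (n := n) (d := d) (k := k) (N := N') (M := (q + 1) * M) (c := c) (A := A)
    (u := u) (v := v) (C1 := C1) (C2 := C2) (γ := γ) hn hC1 hC2 (by
      have e1 : 2 * N' + 2 = 2 * (N' + 1) := by ring
      rw [e1, hN']
      push_cast
      push_cast at hN
      exact hN) hM hC hc
  have e1 : 2 * ((N + 1) * (q + 1) + B) = 2 * N' + 2 := by rw [← hN']; ring
  rw [e1]
  exact (Nat.mul_le_mul_left _ hNN).trans h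

end Pool.Agent.Helper21.MX
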