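import Pool.Agent.Helper89.MX.QuantOf
import Pool.Agent.Helper89.MX.SizeM
import Pool.Agent.Helper8.PQ.AsymS

set_option autoImplicit false

/-!
# Sparse and dense comparisons together: the asymptotic form
-/

namespace Pool.Agent.Helper21.MX

open Finset
open Pool.Agent.Helper22.ETModel Pool.Agent.Helper22.TSModel Pool.Agent.Helper22.EP
open Pool.Agent.Helper8.PQ

/-- The largest base. -/
lemma exists_base {n k : ℕ} {ε : ℝ} (hn : 1 ≤ n) (hk : 1 ≤ k) (hkε : 1 / (k : ℝ) ≤ ε) :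
    ∃ r : ℕ, (r : ℝ) ^ 2 ≤ (n : ℝ) ^ ε ∧ ∀ b : ℕ, b ^ (2 * k) ≤ n → b ≤ r := by
  have hn1 : (1 : ℝ) ≤ n := by exact_mod_cast hn
  have hn0 : (0 : ℝ) < n := by linarith
  have hk0 : (0 : ℝ) < k := by exact_mod_cast hk
  refine ⟨⌊(n : ℝ) ^ (((2 * k : ℕ) : ℝ)⁻¹)⌋₊, ?_, ?_⟩
  · have h1 := Nat.floor_le (a := (n : ℝ) ^ (((2 * k : ℕ) : ℝ)⁻¹)) (by positivity)
    calc ((⌊(n : ℝ) ^ (((2 * k : ℕ) : ℝ)⁻¹)⌋₊ : ℕ) : ℝ) ^ 2
        ≤ ((n : ℝ) ^ (((2 * k : ℕ) : ℝ)⁻¹)) ^ 2 := pow_le_pow_left₀ (Nat.cast_nonneg _) h1 2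
      _ = (n : ℝ) ^ ((((2 * k : ℕ) : ℝ)⁻¹) * ((2 : ℕ) : ℝ)) := rpow_pow_nat hn0 _ 2
      _ ≤ (n : ℝ) ^ ε := by
          apply Real.rpow_le_rpow_of_exponent_le hn1
          refine le_trans (le_of_eq ?_) hkε
          push_cast
          field_simp
  · intro b hb
    apply Nat.le_floor
    have h1 : (b : ℝ) = ((b : ℝ) ^ (2 * k)) ^ (((2 * k : ℕ) : ℝ)⁻¹) :=
      (Real.pow_rpow_inv_natCast (Nat.cast_nonneg b) (by omega)).symm
    rw [h1]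
    apply Real.rpow_le_rpow (by positivity) _ (by positivity)
    exact_mod_cast hb

/-- The asymptotic form, any memory. -/
theorem asymM_of (hmain : MainB) (htr : TrivB) (d c s b : ℕ) (w σ ε : ℝ) (hd : 1 ≤ d)
    (hw : 0 ≤ w) (hσ : 0 ≤ σ) (hε : 0 < ε)
    (h : (d + 1) * (5 + max w (2 * s + b)) + 2 * d * (d + 1) +
      d * max w (s * (ε + σ)) * (2 / ε + 2) < c) :
    ∃ δ : ℝ, 0 < δ ∧ ∃ n₀ : ℕ, ∀ n : ℕ, n₀ ≤ n → ∀ a κ K D W R : ℕ, (a : ℝ) ≤ (n : ℝ) ^ δ →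
      (κ : ℝ) ≤ (n : ℝ) ^ δ → (K : ℝ) ≤ (n : ℝ) ^ w → Real.logb 2 W ≤ (n : ℝ) ^ σ →
      ∀ A : Alg n D W R (PolQ n d a) SignType, DecidesC A (polFam n d a) c →
        FewM A s κ (n ^ b) K → (n : ℝ) ^ (3 - ε) ≤ D * (1 + Real.logb 2 W) := by
  obtain ⟨k, hkdef⟩ : ∃ k : ℕ, k = ⌊1 / ε⌋₊ + 1 := ⟨_, rfl⟩
  have hk1 : 1 ≤ k := by omega
  have hk0 : (0 : ℝ) < k := by exact_mod_cast hk1
  have hd0 : (1 : ℝ) ≤ d := by exact_mod_cast hd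
  have hs0 : (0 : ℝ) ≤ s := Nat.cast_nonneg s
  have hb0 : (0 : ℝ) ≤ b := Nat.cast_nonneg b
  have hkle : (k : ℝ) ≤ 1 / ε + 1 := by
    rw [hkdef]
    push_cast
    have := Nat.floor_le (a := 1 / ε) (by positivity)
    linarith
  have hkgt : 1 / ε < k := by
    rw [hkdef]
    push_cast
    exact Nat.lt_floor_add_one _
  have hg : 0 < ε - 1 / k := by
    have h1 : 1 / (k : ℝ) < ε := by
      rw [div_lt_iff₀ hk0]
      rw [div_lt_iff₀ hε] at hkgt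
      linarith
    linarith
  obtain ⟨g, hgdef⟩ : ∃ g : ℝ, g = ε - 1 / k := ⟨_, rfl⟩
  rw [← hgdef] at hg
  obtain ⟨μ, hμ⟩ : ∃ μ : ℝ, μ = max w (2 * s + b) := ⟨_, rfl⟩
  obtain ⟨ν, hν⟩ : ∃ ν : ℝ, ν = max w (s * (ε + σ)) := ⟨_, rfl⟩
  rw [← hμ, ← hν] at h
  have hμw : w ≤ μ := by rw [hμ]; exact le_max_left _ _
  have hμb : (2 * s + b : ℝ) ≤ μ := by rw [hμ]; exact le_max_right _ _
  have hν0 : 0 ≤ ν := by
    have : w ≤ ν := by rw [hν]; exact le_max_left _ _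
    linarith
  have hkν : (d : ℝ) * ν * (2 * k) ≤ d * ν * (2 / ε + 2) := by
    apply mul_le_mul_of_nonneg_left _ (by positivity)
    have : 2 / ε = 2 * (1 / ε) := by ring
    rw [this]
    linarith
  obtain ⟨γ, hγdef⟩ : ∃ γ : ℝ, γ = c - ((d + 1) * (5 + μ) + 2 * d * (d + 1) + d * ν * (2 * k)) :=
    ⟨_, rfl⟩
  have hγ : 0 < γ := by linarith
  obtain ⟨Bd, hBd⟩ : ∃ Bd : ℝ, Bd = ((d : ℝ) + 1) * (s + 2) + 2 * k * d * (5 * s + 3) := ⟨_, rfl⟩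
  have hBd0 : 0 < Bd := by rw [hBd]; positivity
  -- the choice of `δ`
  obtain ⟨δ, hδ0, hδ1, hδ2, hδ3⟩ :
      ∃ δ : ℝ, 0 < δ ∧ 6 * δ ≤ g ∧ δ * Bd ≤ γ / 2 ∧ δ ≤ 1 / 2 := by
    refine ⟨min (min (g / 6) (γ / 2 / Bd)) (1 / 2),
      lt_min (lt_min (by positivity) (by positivity)) (by norm_num), ?_, ?_, min_le_right _ _⟩
    · have h1 := min_le_left (min (g / 6) (γ / 2 / Bd)) (1 / 2)
      have h2 := min_le_left (g / 6) (γ / 2 / Bd)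
      linarith
    · have h1 := min_le_left (min (g / 6) (γ / 2 / Bd)) (1 / 2)
      have h2 := min_le_right (g / 6) (γ / 2 / Bd)
      calc min (min (g / 6) (γ / 2 / Bd)) (1 / 2) * Bd ≤ (γ / 2 / Bd) * Bd :=
            mul_le_mul_of_nonneg_right (h1.trans h2) hBd0.le
        _ = γ / 2 := div_mul_cancel₀ _ hBd0.ne'
  refine ⟨δ, hδ0, ?_⟩
  obtain ⟨η, hηdef⟩ : ∃ η : ℝ, η = δ / 2 / (2 * k) := ⟨_, rfl⟩
  have hη : 0 < η := by rw [hηdef]; positivity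
  obtain ⟨CN, hCN⟩ : ∃ CN : ℝ, CN = 256 * (d : ℝ) ^ 2 + 171 * (2 * d * (1 + 3 ^ (s + 1)) + 1) +
    512 * (2 * s + 1) ^ s := ⟨_, rfl⟩
  have hCN0 : 0 ≤ CN := by rw [hCN]; positivity
  obtain ⟨CM, hCM⟩ : ∃ CM : ℝ, CM = 1024 * (d : ℝ) + 1 + 1024 * k * (2 * s + 1) ^ s := ⟨_, rfl⟩
  have hCM0 : 0 ≤ CM := by rw [hCM]; positivity
  obtain ⟨C1, hC1⟩ : ∃ C1 : ℝ, C1 = 2 * ((CN + 1) * (s + 1) + 1) := ⟨_, rfl⟩
  have hC10 : 0 ≤ C1 := by rw [hC1]; positivity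
  obtain ⟨C2, hC2⟩ : ∃ C2 : ℝ, C2 = (s + 1) * CM := ⟨_, rfl⟩
  have hC20 : 0 ≤ C2 := by rw [hC2]; positivity
  have hev := ((ev_const (s + 2 * d * (9 + w * (2 / δ)) + 3) δ hδ0).and
    ((ev_const (2 * (acC d : ℝ) * (acC d * (C1 * C2 ^ (2 * k))) ^ d * C1) (γ / 2)
        (by positivity)).and
      ((ev_const (9 + 4 * (2 / δ)) δ hδ0).and
        ((ev_const ((2 ^ 15 * (2 / η)) ^ (2 * k)) (δ / 2) (by positivity)).and
          ((ev_const 2 δ hδ0).and ((ev_const s (1 / 2) (by norm_num)).and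
            (Filter.eventually_ge_atTop (12 * k))))))))
  obtain ⟨n₀, hn₀⟩ := Filter.eventually_atTop.1 hev
  refine ⟨n₀, fun n hn a κ K D W R ha hκ hK hWσ A hA hAK => ?_⟩
  obtain ⟨he1, he2, he3, he4, he5, he6, hn12⟩ := hn₀ n hn
  have hnn : 1 ≤ n := by omega
  have hn1 : (1 : ℝ) ≤ n := by exact_mod_cast hnn
  have hn0 : (0 : ℝ) < n := by linarith
  have hnd : 1 ≤ (n : ℝ) ^ δ := Real.one_le_rpow hn1 hδ0.le
  have hW : 1 ≤ W := one_le_W A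
  have hW1 : (1 : ℝ) ≤ W := by exact_mod_cast hW
  have hL0 : 0 ≤ Real.logb 2 W := Real.logb_nonneg (by norm_num) hW1
  obtain ⟨t1, ht1, ht1'⟩ := exists_t1 hnn hw hδ0 hK
  have hκ0 : (0 : ℝ) ≤ κ := Nat.cast_nonneg κ
  -- `s κ ≤ n`
  have hsκ : s * κ ≤ n := by
    have h1 : (s : ℝ) * κ ≤ n := by
      calc (s : ℝ) * κ ≤ (n : ℝ) ^ (1 / 2 : ℝ) * (n : ℝ) ^ (1 / 2 : ℝ) := by
            apply mul_le_mul he6 _ hκ0 (by positivity)
            exact hκ.trans (Real.rpow_le_rpow_of_exponent_le hn1 hδ3)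
        _ = n := by
            rw [← Real.rpow_add hn0]
            norm_num
    exact_mod_cast h1
  -- the parameter `S1`
  obtain ⟨S1, hS1def⟩ : ∃ S1 : ℕ, S1 = s + 2 * d * t1 + 2 * a + 1 := ⟨_, rfl⟩
  have hS1le : (S1 : ℝ) ≤ (n : ℝ) ^ (2 * δ) := by
    have h1 : (2 * d : ℝ) * t1 ≤ 2 * d * ((9 + w * (2 / δ)) * (n : ℝ) ^ δ) :=
      mul_le_mul_of_nonneg_left ht1' (by linarith)
    have h2 : (s : ℝ) ≤ s * (n : ℝ) ^ δ := le_mul_of_one_le_right hs0 hnd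
    calc (S1 : ℝ) = s + 2 * d * t1 + 2 * a + 1 := by rw [hS1def]; push_cast; ring
      _ ≤ s * (n : ℝ) ^ δ + 2 * d * ((9 + w * (2 / δ)) * (n : ℝ) ^ δ) + 2 * (n : ℝ) ^ δ +
          (n : ℝ) ^ δ := by linarith
      _ = (s + 2 * d * (9 + w * (2 / δ)) + 3) * (n : ℝ) ^ δ := by ring
      _ ≤ (n : ℝ) ^ δ * (n : ℝ) ^ δ := mul_le_mul_of_nonneg_right he1 (by positivity)
      _ = (n : ℝ) ^ (2 * δ) := by rw [← Real.rpow_add hn0]; ring_nf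
  have hs0le : ((2 * d * t1 : ℕ) : ℝ) ≤ (n : ℝ) ^ (2 * δ) := by
    refine le_trans ?_ hS1le
    exact_mod_cast (show 2 * d * t1 ≤ S1 by omega)
  -- the parameter `x`
  have hX1 : (1 : ℝ) ≤ 2 ^ 7 * (n : ℝ) ^ 4 * W := by
    have h1 : (1 : ℝ) ≤ (n : ℝ) ^ 4 := one_le_pow₀ hn1
    have h2 : (1 : ℝ) ≤ (n : ℝ) ^ 4 * W := one_le_mul_of_one_le_of_one_le h1 hW1
    linarith
  obtain ⟨e, he, he'⟩ := exists_pow_two hX1
  have hlogX : Real.logb 2 (2 ^ 7 * (n : ℝ) ^ 4 * W) =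
      7 + 4 * Real.logb 2 n + Real.logb 2 W := by
    rw [Real.logb_mul (by positivity) (by positivity), Real.logb_mul (by positivity) (by positivity),
      Real.logb_pow, Real.logb_pow, Real.logb_self_eq_one (by norm_num)]
    push_cast
    ring
  rw [hlogX] at he'
  obtain ⟨x, hxdef⟩ : ∃ x : ℕ, x = S1 + e := ⟨_, rfl⟩
  have hxle : (x : ℝ) ≤ (n : ℝ) ^ (3 * δ) * (1 + Real.logb 2 W) := by
    have h1 : Real.logb 2 n ≤ 2 / δ * (n : ℝ) ^ δ := logb_le hn0 hδ0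
    have h2 : (n : ℝ) ^ δ ≤ (n : ℝ) ^ (2 * δ) :=
      Real.rpow_le_rpow_of_exponent_le hn1 (by linarith)
    have h3 : 1 ≤ (n : ℝ) ^ (2 * δ) := hnd.trans h2
    have h4 : (0 : ℝ) ≤ 2 / δ := by positivity
    have h5 : 4 * (2 / δ * (n : ℝ) ^ δ) ≤ 4 * (2 / δ) * (n : ℝ) ^ (2 * δ) := by
      calc 4 * (2 / δ * (n : ℝ) ^ δ) = 4 * (2 / δ) * (n : ℝ) ^ δ := by ring
        _ ≤ 4 * (2 / δ) * (n : ℝ) ^ (2 * δ) := mul_le_mul_of_nonneg_left h2 (by positivity)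
    have h6 : (x : ℝ) ≤ (9 + 4 * (2 / δ)) * (n : ℝ) ^ (2 * δ) + Real.logb 2 W := by
      rw [hxdef]
      push_cast
      linarith
    have h7 : (9 + 4 * (2 / δ)) * (n : ℝ) ^ (2 * δ) ≤ (n : ℝ) ^ (3 * δ) := by
      calc (9 + 4 * (2 / δ)) * (n : ℝ) ^ (2 * δ) ≤ (n : ℝ) ^ δ * (n : ℝ) ^ (2 * δ) :=
            mul_le_mul_of_nonneg_right he3 (by positivity)
        _ = (n : ℝ) ^ (3 * δ) := by rw [← Real.rpow_add hn0]; ring_nf
    have h8 : 1 ≤ (n : ℝ) ^ (3 * δ) := Real.one_le_rpow hn1 (by linarith)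
    have h9 : Real.logb 2 W ≤ (n : ℝ) ^ (3 * δ) * Real.logb 2 W := le_mul_of_one_le_left hL0 h8
    calc (x : ℝ) ≤ (n : ℝ) ^ (3 * δ) + (n : ℝ) ^ (3 * δ) * Real.logb 2 W := by linarith
      _ = (n : ℝ) ^ (3 * δ) * (1 + Real.logb 2 W) := by ring
  have hxσ : (x : ℝ) ≤ (n : ℝ) ^ (σ + 4 * δ) := by
    have hnσ : 1 ≤ (n : ℝ) ^ σ := Real.one_le_rpow hn1 hσ
    calc (x : ℝ) ≤ (n : ℝ) ^ (3 * δ) * (1 + Real.logb 2 W) := hxle
      _ ≤ (n : ℝ) ^ (3 * δ) * ((n : ℝ) ^ δ * (n : ℝ) ^ σ) := by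
          apply mul_le_mul_of_nonneg_left _ (by positivity)
          calc 1 + Real.logb 2 W ≤ 2 * (n : ℝ) ^ σ := by linarith
            _ ≤ (n : ℝ) ^ δ * (n : ℝ) ^ σ := mul_le_mul_of_nonneg_right he5 (by positivity)
      _ = (n : ℝ) ^ (σ + 4 * δ) := by
          rw [← Real.rpow_add hn0, ← Real.rpow_add hn0]
          congr 1
          ring
  have hx : 2 ^ 7 * n ^ 4 * W ≤ 2 ^ x := by
    have h1 : (2 : ℝ) ^ 7 * (n : ℝ) ^ 4 * W ≤ 2 ^ x :=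
      he.trans (pow_le_pow_right₀ (by norm_num) (by omega))
    exact_mod_cast h1
  -- the factor with the logarithm
  have hlf : (2 ^ 15 * Real.logb 2 n) ^ (2 * k) ≤ (n : ℝ) ^ δ := by
    have h1 : Real.logb 2 n ≤ 2 / η * (n : ℝ) ^ η := logb_le hn0 hη
    have h0 : 0 ≤ Real.logb 2 n := Real.logb_nonneg (by norm_num) hn1
    calc (2 ^ 15 * Real.logb 2 n) ^ (2 * k) ≤ (2 ^ 15 * (2 / η * (n : ℝ) ^ η)) ^ (2 * k) := by
          apply pow_le_pow_left₀ (by positivity)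
          exact mul_le_mul_of_nonneg_left h1 (by norm_num)
      _ = (2 ^ 15 * (2 / η)) ^ (2 * k) * ((n : ℝ) ^ η) ^ (2 * k) := by
          rw [← mul_assoc, mul_pow]
      _ = (2 ^ 15 * (2 / η)) ^ (2 * k) * (n : ℝ) ^ (δ / 2) := by
          congr 1
          rw [← Real.rpow_natCast, ← Real.rpow_mul hn0.le]
          congr 1
          rw [hηdef]
          push_cast
          exact div_mul_cancel₀ _ (by positivity)
      _ ≤ (n : ℝ) ^ (δ / 2) * (n : ℝ) ^ (δ / 2) := mul_le_mul_of_nonneg_right he4 (by positivity)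
      _ = (n : ℝ) ^ δ := by rw [← Real.rpow_add hn0]; ring_nf
  -- the base, the noise and the masks
  obtain ⟨r, hr, hrb⟩ := exists_base (n := n) (k := k) (ε := ε) hnn hk1 (by linarith)
  obtain ⟨N, hNdef⟩ : ∃ N : ℕ, N = 256 * K * d ^ 2 + 171 * n ^ 5 * ((2 * d * (K +
    (n ^ 2 * (2 * κ + 1)) ^ s * (2 * n ^ b + 1)) + 1) * a) +
      512 * (n ^ 2 * (2 * (s * κ) + 1)) ^ s := ⟨_, rfl⟩
  obtain ⟨M, hMdef⟩ : ∃ M : ℕ, M = 1024 * K * (2 * d * t1) * d + 1 +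
    512 * (2 * k * (r ^ 2 * x * (2 * (s * κ) + 1)) ^ s) := ⟨_, rfl⟩
  have hNle : (N : ℝ) ≤ CN * (n : ℝ) ^ (5 + μ + δ * (s + 1)) := by
    rw [hNdef, hCN, hμ]
    exact sizeN hnn hδ0 hK ha hκ
  have hMle : (M : ℝ) ≤ CM * (n : ℝ) ^ (ν + δ * (5 * s + 2)) := by
    rw [hMdef, hCM, hν]
    exact sizeM hnn hδ0 hw hσ hK hs0le hxσ hr hκ
  have hq1 : ((s : ℝ) * κ + 1) ≤ (s + 1) * (n : ℝ) ^ δ := by nlinarith
  have hq0 : (0 : ℝ) ≤ (s : ℝ) * κ + 1 := by positivity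
  have hNN : (2 * ((N + 1) * (s * κ + 1) + n ^ b : ℕ) : ℝ) ≤
      C1 * (n : ℝ) ^ (5 + μ + δ * (s + 2)) := by
    have e0 : (1 : ℝ) ≤ (n : ℝ) ^ (5 + μ + δ * (s + 1)) :=
      Real.one_le_rpow hn1 (by nlinarith)
    have e1 : (N : ℝ) + 1 ≤ (CN + 1) * (n : ℝ) ^ (5 + μ + δ * (s + 1)) := by linarith
    have e2 : (n : ℝ) ^ (5 + μ + δ * (s + 1)) * (n : ℝ) ^ δ =
        (n : ℝ) ^ (5 + μ + δ * (s + 2)) := by
      rw [← Real.rpow_add hn0]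
      congr 1
      ring
    have e3 : (n : ℝ) ^ b ≤ (n : ℝ) ^ (5 + μ + δ * (s + 2)) := by
      rw [← Real.rpow_natCast]
      exact Real.rpow_le_rpow_of_exponent_le hn1 (by nlinarith)
    push_cast
    calc 2 * (((N : ℝ) + 1) * (s * κ + 1) + (n : ℝ) ^ b)
        ≤ 2 * (((CN + 1) * (n : ℝ) ^ (5 + μ + δ * (s + 1))) * ((s + 1) * (n : ℝ) ^ δ) +
          (n : ℝ) ^ (5 + μ + δ * (s + 2))) := by
          apply mul_le_mul_of_nonneg_left _ (by norm_num)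
          exact add_le_add (mul_le_mul e1 hq1 hq0 (by positivity)) e3
      _ = 2 * ((CN + 1) * (s + 1) * ((n : ℝ) ^ (5 + μ + δ * (s + 1)) * (n : ℝ) ^ δ) +
          (n : ℝ) ^ (5 + μ + δ * (s + 2))) := by ring
      _ = C1 * (n : ℝ) ^ (5 + μ + δ * (s + 2)) := by rw [e2, hC1]; ring
  have hMM : (((s * κ + 1) * M : ℕ) : ℝ) ≤ C2 * (n : ℝ) ^ (ν + δ * (5 * s + 3)) := by
    push_cast
    calc ((s : ℝ) * κ + 1) * M
        ≤ ((s + 1) * (n : ℝ) ^ δ) * (CM * (n : ℝ) ^ (ν + δ * (5 * s + 2))) :=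
          mul_le_mul hq1 hMle (Nat.cast_nonneg M) (by positivity)
      _ = C2 * ((n : ℝ) ^ δ * (n : ℝ) ^ (ν + δ * (5 * s + 2))) := by rw [hC2]; ring
      _ = C2 * (n : ℝ) ^ (ν + δ * (5 * s + 3)) := by
          rw [← Real.rpow_add hn0]
          congr 2
          ring
  have hsz := sizeAll (k := 2 * k) (d := d) (c := c) (A := acC d) (γ := γ / 2) (δ := δ) hnn hC10
    hC20 hNN hMM he2 (by
      have e1 : 2 * (d : ℝ) + d * (2 * d + (5 + μ + δ * (s + 2)) +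
          (ν + δ * (5 * s + 3)) * ((2 * k : ℕ) : ℝ)) + (5 + μ + δ * (s + 2)) + γ / 2 =
          ((d + 1) * (5 + μ) + 2 * d * (d + 1) + d * ν * (2 * k)) + δ * Bd + γ / 2 := by
        rw [hBd]; push_cast; ring
      rw [e1]
      linarith)
  have hq := quantM_of hmain htr (n := n) (M := M) (N := N) (x := x) (t1 := t1) (S1 := S1)
    (s0 := 2 * d * t1) (k := k) (s := s) (κ := κ) (B := n ^ b) (K := K) hk1 hn12 (by omega)
    (by omega) hd le_rfl (by omega) (by omega) (by omega) ht1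
    (by rw [hNdef]; exact (Nat.le_add_right _ _).trans (Nat.le_add_right _ _))
    (by rw [hNdef]; exact (Nat.le_add_left _ _).trans (Nat.le_add_right _ _))
    (by rw [hNdef]; exact Nat.le_add_left _ _)
    (by rw [hMdef]; exact (Nat.le_add_right _ _).trans (Nat.le_add_right _ _))
    (by omega)
    (fun b' hb' => by
      rw [hMdef]
      refine le_trans ?_ (Nat.le_add_left _ _)
      have h1 := hrb b' hb'
      gcongr)
    hsκ hsz hx A hA hAK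
  -- conclusion
  have hD0 : (0 : ℝ) ≤ D := Nat.cast_nonneg D
  have hS0 : (0 : ℝ) ≤ S1 := Nat.cast_nonneg S1
  have hx0 : (0 : ℝ) ≤ x := Nat.cast_nonneg x
  have hlf0 : 0 ≤ (2 ^ 15 * Real.logb 2 n) ^ (2 * k) := by
    have h0 : 0 ≤ Real.logb 2 n := Real.logb_nonneg (by norm_num) hn1
    positivity
  have hfin : (n : ℝ) ^ g * (n : ℝ) ^ (3 - ε) ≤ (n : ℝ) ^ g * (D * (1 + Real.logb 2 W)) := by
    calc (n : ℝ) ^ g * (n : ℝ) ^ (3 - ε) = (n : ℝ) ^ (3 - 1 / (k : ℝ)) := by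
          rw [← Real.rpow_add hn0, hgdef]
          ring_nf
      _ ≤ (2 ^ 15 * Real.logb 2 n) ^ (2 * k) * S1 * x * D := hq
      _ ≤ (n : ℝ) ^ δ * (n : ℝ) ^ (2 * δ) * ((n : ℝ) ^ (3 * δ) * (1 + Real.logb 2 W)) * D := by
          apply mul_le_mul_of_nonneg_right _ hD0
          apply mul_le_mul _ hxle hx0 (by positivity)
          exact mul_le_mul hlf hS1le hS0 (by positivity)
      _ = (n : ℝ) ^ (6 * δ) * (D * (1 + Real.logb 2 W)) := by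
          have e1 : (n : ℝ) ^ (6 * δ) = (n : ℝ) ^ δ * (n : ℝ) ^ (2 * δ) * (n : ℝ) ^ (3 * δ) := by
            rw [← Real.rpow_add hn0, ← Real.rpow_add hn0]
            ring_nf
          rw [e1]
          ring
      _ ≤ (n : ℝ) ^ g * (D * (1 + Real.logb 2 W)) := by
          apply mul_le_mul_of_nonneg_right _ (by positivity)
          exact Real.rpow_le_rpow_of_exponent_le hn1 hδ1
  exact le_of_mul_le_mul_left hfin (by positivity)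

end Pool.Agent.Helper21.MX
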