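import Pool.Agent.Helper89.MX.QuantOf
import Pool.Agent.Helper96.MX.Final

set_option autoImplicit false

/-!
# Sparse and dense comparisons together: the quantitative bound
-/

namespace Pool.Agent.Helper21.MX

open Finset
open Pool.Agent.Helper22.ETModel Pool.Agent.Helper22.TSModel Pool.Agent.Helper22.EP
open Pool.Agent.Helper8.PQ

variable {n M N d a D W R c k s κ B K s0 S1 t1 x : ℕ}

/-- The quantitative bound, any memory. -/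
theorem quantM (hk : 1 ≤ k) (hkn : 12 * k ≤ n) (hS1 : 1 ≤ S1) (hSx : S1 ≤ x)
    (hd : 1 ≤ d) (hs0 : 2 * d * t1 ≤ s0) (h1 : s ≤ S1) (h2 : s0 ≤ S1) (h3 : 2 * a ≤ S1)
    (hK : 256 * K ≤ 2 ^ t1) (hN : 256 * K * d ^ 2 ≤ N)
    (hN2 : 171 * n ^ 5 *
      ((2 * d * (K + (n ^ 2 * (2 * κ + 1)) ^ s * (2 * B + 1)) + 1) * a) ≤ N)
    (hNf : 512 * (n ^ 2 * (2 * (s * κ) + 1)) ^ s ≤ N)
    (hM : 1024 * K * s0 * d ≤ M) (hM1 : 1 ≤ M)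
    (hMf : ∀ b : ℕ, b ^ (2 * k) ≤ n →
      512 * (2 * k * (b ^ 2 * x * (2 * (s * κ) + 1)) ^ s) ≤ M)
    (hκ : s * κ ≤ n)
    (hsz : 2 * acC d * n ^ (2 * d) * (acC d * n ^ (2 * d) *
      (2 * ((N + 1) * (s * κ + 1) + B) * ((s * κ + 1) * M) ^ (2 * k))) ^ d * (N + 1) ≤ n ^ c)
    (hx : 2 ^ 7 * n ^ 4 * W ≤ 2 ^ x)
    (A : Alg n D W R (PolQ n d a) SignType) (hA : DecidesC A (polFam n d a) c)
    (hAK : FewM A s κ B K) :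
    (n : ℝ) ^ (3 - 1 / (k : ℝ)) ≤ (2 ^ 15 * Real.logb 2 n) ^ (2 * k) * S1 * x * D :=
  quantM_of mainB trivB hk hkn hS1 hSx hd hs0 h1 h2 h3 hK hN hN2 hNf hM hM1 hMf hκ hsz hx A hA hAK

end Pool.Agent.Helper21.MX
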