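import Pool.Agent.Helper21.MX.Defs
import Pool.Agent.Helper8.PQ.Model
import Pool.Agent.Helper8.PQ.Anti

set_option autoImplicit false

/-!
# Sparse and dense comparisons together: the choice of the scales
-/

namespace Pool.Agent.Helper21.MX

open Finset
open Pool.Agent.Helper22.ETModel Pool.Agent.Helper22.TSModel Pool.Agent.Helper22.EP
open Pool.Agent.Helper8.PQ

variable {m n M N d a D W R c k s κ B K s0 S1 t1 x : ℕ}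

/-- The scales. -/
structure ScalesM (n k d N M c s κ B H L Y Q : ℕ) (Λ : ℝ) : Prop where
  hL : 2 * N + 2 ≤ L
  hLB : B + s * κ * (2 * N + 1) + 1 ≤ L
  hY : M ≤ Y
  hYs : s * κ * M ≤ Y
  hH : ∀ m, 3 * m ≤ n → (3 * m ^ 2 + 1) ^ d ≤ H
  hΛ : (acC d : ℝ) * H * (L * (Y : ℝ) ^ k) ≤ Λ
  hQ : 2 * (acC d : ℝ) * H * Λ ^ d ≤ Q
  hQ1 : 1 ≤ Q
  hQs : s * κ * (L * Y ^ k) + B + 1 ≤ Q
  hLe : Even L
  hQe : Even Q
  hLQ : L * Y ^ k ≤ Q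
  hQn : Q * (N + 1) ≤ n ^ c

/-- The choice of the scales. -/
theorem scalesM (hn : 3 ≤ n) (hd : 1 ≤ d) (hM1 : 1 ≤ M) (hκ : s * κ ≤ n)
    (hsz : 2 * acC d * n ^ (2 * d) * (acC d * n ^ (2 * d) *
      (2 * ((N + 1) * (s * κ + 1) + B) * ((s * κ + 1) * M) ^ k)) ^ d * (N + 1) ≤ n ^ c) :
    ∃ (H L Y Q : ℕ) (Λ : ℝ), ScalesM n k d N M c s κ B H L Y Q Λ := by
  have hc := one_le_acC d
  have hnd : 1 ≤ n ^ (2 * d) := Nat.one_le_pow _ _ (by omega)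
  obtain ⟨q, hq⟩ : ∃ q, q = s * κ := ⟨_, rfl⟩
  rw [← hq] at hκ hsz
  obtain ⟨Y, hY⟩ : ∃ Y, Y = (q + 1) * M := ⟨_, rfl⟩
  have hYM : M ≤ Y := by
    rw [hY]; exact Nat.le_mul_of_pos_left _ (by omega)
  have hYq : q * M ≤ Y := by
    rw [hY]; exact Nat.mul_le_mul_right _ (by omega)
  have hYk : 1 ≤ Y ^ k := Nat.one_le_pow _ _ (hM1.trans hYM)
  obtain ⟨L, hL⟩ : ∃ L, L = 2 * ((N + 1) * (q + 1) + B) := ⟨_, rfl⟩
  have hL2 : 2 * N + 2 ≤ L := by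
    rw [hL]
    nlinarith [Nat.zero_le (N * q)]
  have hLB : B + q * (2 * N + 1) + 1 ≤ L := by
    rw [hL]
    nlinarith [Nat.zero_le (N * q)]
  have hBL : B + 1 ≤ L := by
    have := Nat.zero_le (q * (2 * N + 1))
    omega
  obtain ⟨V, hV⟩ : ∃ V, V = L * Y ^ k := ⟨_, rfl⟩
  have hLV : L ≤ V := by
    rw [hV]; exact Nat.le_mul_of_pos_right _ hYk
  have hV1 : 1 ≤ V := by omega
  obtain ⟨Λ, hΛ⟩ : ∃ Λ, Λ = acC d * n ^ (2 * d) * V := ⟨_, rfl⟩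
  have hΛV : V ≤ Λ := by
    rw [hΛ]; exact Nat.le_mul_of_pos_left _ (Nat.mul_pos hc hnd)
  have hΛ1 : 1 ≤ Λ := hV1.trans hΛV
  have hΛd : Λ ≤ Λ ^ d := Nat.le_self_pow (by omega) _
  have hΛQ : Λ ^ d ≤ 2 * acC d * n ^ (2 * d) * Λ ^ d :=
    Nat.le_mul_of_pos_left _ (Nat.mul_pos (Nat.mul_pos (by norm_num) hc) hnd)
  have hqn : q + 1 ≤ n ^ (2 * d) := by
    calc q + 1 ≤ n ^ 2 := by nlinarith
      _ ≤ n ^ (2 * d) := Nat.pow_le_pow_right (by omega) (by omega)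
  have hQs : q * V + B + 1 ≤ 2 * acC d * n ^ (2 * d) * Λ ^ d := by
    calc q * V + B + 1 ≤ q * V + V := by omega
      _ = (q + 1) * V := by ring
      _ ≤ n ^ (2 * d) * V := Nat.mul_le_mul_right _ hqn
      _ ≤ acC d * n ^ (2 * d) * V :=
          Nat.mul_le_mul_right _ (Nat.le_mul_of_pos_left _ hc)
      _ = Λ := hΛ.symm
      _ ≤ Λ ^ d := hΛd
      _ ≤ _ := hΛQ
  refine ⟨n ^ (2 * d), L, Y, 2 * acC d * n ^ (2 * d) * Λ ^ d, (Λ : ℝ), hL2, ?_, hYM, ?_, ?_, ?_,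
    ?_, ?_, ?_, ⟨(N + 1) * (q + 1) + B, by rw [hL]; ring⟩,
    ⟨acC d * n ^ (2 * d) * Λ ^ d, by ring⟩, ?_, ?_⟩
  · rw [← hq]
    exact hLB
  · rw [← hq]
    exact hYq
  · intro m hm
    rw [pow_mul]
    apply Nat.pow_le_pow_left
    nlinarith
  · rw [hΛ, hV]
    push_cast
    exact le_rfl
  · push_cast
    exact le_rfl
  · exact Nat.mul_pos (Nat.mul_pos (Nat.mul_pos (by norm_num) hc) hnd) (Nat.pow_pos hΛ1)
  · rw [← hq, ← hV]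
    exact hQs
  · rw [← hV]
    exact hΛV.trans (hΛd.trans hΛQ)
  · rw [hΛ, hV, hL, hY]
    exact hsz

/-- The noise is large enough for the zero tests. -/
theorem noiseM_ok {X : ℕ} (h : 3 * m ≤ n) (hD : D ≤ n ^ 3) (hN2 : 171 * n ^ 5 * X ≤ N) :
    256 * (2 * (D * (3 * m ^ 2 * X))) ≤ N + 1 := by
  have h2 : 9 * m ^ 2 ≤ n ^ 2 := by
    calc 9 * m ^ 2 = (3 * m) ^ 2 := by ring
      _ ≤ n ^ 2 := Nat.pow_le_pow_left h 2
  have h3 : 256 * (2 * (3 * m ^ 2)) ≤ 171 * n ^ 2 := by omega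
  calc 256 * (2 * (D * (3 * m ^ 2 * X))) = 256 * (2 * (3 * m ^ 2)) * (D * X) := by ring
    _ ≤ 171 * n ^ 2 * (n ^ 3 * X) :=
        Nat.mul_le_mul h3 (Nat.mul_le_mul_right _ hD)
    _ = 171 * n ^ 5 * X := by ring
    _ ≤ N := hN2
    _ ≤ N + 1 := Nat.le_succ _

/-- The noise of the deleted elements. -/
theorem noiseF_ok {q : ℕ} (h : 3 * m ≤ n) (hNf : 512 * (n ^ 2 * (2 * q + 1)) ^ s ≤ N) :
    512 * (3 * m ^ 2 * (2 * q + 1)) ^ s ≤ N + 1 := by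
  have h2 : 3 * m ^ 2 ≤ n ^ 2 := by nlinarith
  calc 512 * (3 * m ^ 2 * (2 * q + 1)) ^ s ≤ 512 * (n ^ 2 * (2 * q + 1)) ^ s :=
        Nat.mul_le_mul_left _ (Nat.pow_le_pow_left (Nat.mul_le_mul_right _ h2) _)
    _ ≤ N := hNf
    _ ≤ N + 1 := Nat.le_succ _

end Pool.Agent.Helper21.MX
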